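import Pool.Agent.Helper50.VD.St

open MeasureTheory Set Filter Topology
open scoped ENNReal

noncomputable section

namespace VD.M_P3

/-- floor division -/
lemma fdiv_err (x : ℤ) (b : ℕ) (hb : 0 < b) : |((x / (b : ℤ) : ℤ) : ℝ) - (x : ℝ) / b| ≤ 1 := by
  have hb' : (0 : ℤ) < (b : ℤ) := by exact_mod_cast hb
  have hbr : (0 : ℝ) < (b : ℝ) := by exact_mod_cast hb
  have h1 : (x / (b : ℤ)) * (b : ℤ) ≤ x := Int.ediv_mul_le x hb'.ne'
  have h2 : x < (x / (b : ℤ) + 1) * (b : ℤ) := Int.lt_ediv_add_one_mul_self x hb'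
  have h1' : ((x / (b : ℤ) : ℤ) : ℝ) * (b : ℝ) ≤ (x : ℝ) := by exact_mod_cast h1
  have h2' : (x : ℝ) < (((x / (b : ℤ) : ℤ) : ℝ) + 1) * (b : ℝ) := by exact_mod_cast h2
  have h3 : ((x / (b : ℤ) : ℤ) : ℝ) ≤ (x : ℝ) / b := by rwa [le_div_iff₀ hbr]
  have h4 : (x : ℝ) / b < ((x / (b : ℤ) : ℤ) : ℝ) + 1 := by rwa [div_lt_iff₀ hbr]
  rw [abs_le]
  constructor <;> linarith

lemma ndiv_err (x b : ℕ) (hb : 0 < b) : (x : ℝ) / b ≤ ((x / b : ℕ) : ℝ) + 1 := by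
  have hbr : (0 : ℝ) < (b : ℝ) := by exact_mod_cast hb
  have h1 : x < (x / b + 1) * b := by
    have := Nat.lt_succ_iff.2 (le_refl (x / b))
    exact (Nat.div_lt_iff_lt_mul hb).1 this
  have h2 : (x : ℝ) < (((x / b : ℕ) : ℝ) + 1) * (b : ℝ) := by exact_mod_cast h1
  rw [div_le_iff₀ hbr]
  exact h2.le

/-- one term -/
lemma term_err (a : ℤ) (b L : ℕ) (v : ℝ) (hb : 0 < b) (h : |(L : ℝ) - 2 ^ 56 * v| ≤ 4096) :
    |((a * (L : ℤ) / (b : ℤ) : ℤ) : ℝ) - 2 ^ 56 * ((a : ℝ) / b * v)| ≤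
      ((a.natAbs * 4096 / b + 2 : ℕ) : ℝ) := by
  have hbr : (0 : ℝ) < (b : ℝ) := by exact_mod_cast hb
  have h1 := fdiv_err (a * (L : ℤ)) b hb
  have h2 := ndiv_err (a.natAbs * 4096) b hb
  have h3 : |((a * (L : ℤ) : ℤ) : ℝ) / b - 2 ^ 56 * ((a : ℝ) / b * v)| ≤
      ((a.natAbs * 4096 : ℕ) : ℝ) / b := by
    have e : ((a * (L : ℤ) : ℤ) : ℝ) / b - 2 ^ 56 * ((a : ℝ) / b * v) =
        (a : ℝ) * ((L : ℝ) - 2 ^ 56 * v) / b := by
      push_cast
      ring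
    rw [e, abs_div, abs_mul, abs_of_pos hbr]
    have e2 : ((a.natAbs * 4096 : ℕ) : ℝ) = |(a : ℝ)| * 4096 := by
      push_cast
      rw [Nat.cast_natAbs]
      push_cast
      ring
    rw [e2]
    gcongr
  have h4 : |((a * (L : ℤ) / (b : ℤ) : ℤ) : ℝ) - 2 ^ 56 * ((a : ℝ) / b * v)| ≤
      |((a * (L : ℤ) / (b : ℤ) : ℤ) : ℝ) - ((a * (L : ℤ) : ℤ) : ℝ) / b| +
      |((a * (L : ℤ) : ℤ) : ℝ) / b - 2 ^ 56 * ((a : ℝ) / b * v)| := abs_sub_le _ _ _
  have h5 : ((a.natAbs * 4096 / b + 2 : ℕ) : ℝ) = ((a.natAbs * 4096 / b : ℕ) : ℝ) + 2 := by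
    push_cast
    ring
  rw [h5]
  linarith

end VD.M_P3

namespace VD

open M_P3

/-- soundness of apL/erL, bounds of 2^56 pi -/
theorem mP3 (hP3a : StP3a) : StP3 := by
  have hone : ∀ t : Tm, t.ok = true → |((t.ap : ℤ) : ℝ) - 2 ^ 56 * t.ev| ≤ ((t.er : ℕ) : ℝ) := by
    intro t ht
    cases t with
    | lg a b m =>
      have ht' : 0 < b ∧ m < 4294967296 := by simpa [Tm.ok] using ht
      by_cases hm : m = 0
      · subst hm
        simp only [Tm.ap, Tm.ev, Tm.er, if_pos]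
        rw [Nat.cast_zero, Real.log_zero, Int.cast_zero, mul_zero, mul_zero, sub_zero, abs_zero]
        exact Nat.cast_nonneg _
      · simp only [Tm.ap, Tm.ev, Tm.er, if_neg hm]
        exact term_err a b (logA m) _ ht'.1 (hP3a.1 m (Nat.one_le_iff_ne_zero.2 hm) ht'.2)
    | atan a b t q =>
      have ht' : 0 < b ∧ 0 < q := by simpa [Tm.ok] using ht
      simp only [Tm.ap, Tm.ev, Tm.er]
      exact term_err a b (atA t q) _ ht'.1 (hP3a.2 t q ht'.2)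
  refine ⟨?_, ?_, ?_⟩
  · intro l
    induction l with
    | nil =>
      intro _
      simp [apL, erL, evL]
    | cons t l ih =>
      intro h
      have h' : t.ok = true ∧ okL l = true := by simpa [okL] using h
      have h1 := hone t h'.1
      have h2 := ih h'.2
      have e1 : ((apL (t :: l) : ℤ) : ℝ) = ((t.ap : ℤ) : ℝ) + ((apL l : ℤ) : ℝ) := by
        simp [apL]
      have e2 : ((erL (t :: l) : ℕ) : ℝ) = ((t.er : ℕ) : ℝ) + ((erL l : ℕ) : ℝ) := by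
        simp [erL]
      have e3 : evL (t :: l) = t.ev + evL l := by simp [evL]
      rw [e1, e2, e3]
      have e4 : ((t.ap : ℤ) : ℝ) + ((apL l : ℤ) : ℝ) - 2 ^ 56 * (t.ev + evL l) =
          (((t.ap : ℤ) : ℝ) - 2 ^ 56 * t.ev) + (((apL l : ℤ) : ℝ) - 2 ^ 56 * evL l) := by ring
      rw [e4]
      exact (abs_add_le _ _).trans (add_le_add h1 h2)
  · have := Real.pi_gt_d20
    norm_num at this ⊢
    linarith
  · have := Real.pi_lt_d20
    norm_num at this ⊢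
    linarith

end VD
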